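import Mathlib
import Pool.Agent.KS6_35.OV.Fin

/-!
# Equations in one variable over a one-relator group are undecidable

Let `G = ⟨a, t, s | (t a t⁻¹) a (t a t⁻¹)⁻¹ = a²⟩`, the free product of the Baumslag–Gersten group
and the infinite cyclic group, which is a one-relator group. For every recursively enumerable set
`S` of natural numbers there is a word `w(x, p)` such that `k ∈ S` if and only if the single
one-variable equation `w(x, a^k) = 1` has a solution in `G`. So no algorithm decides whether a given
single equation in one variable has a solution in `G`: this is a negative answer to Q1.

Idea of the proof. Let `b = t a t⁻¹`. From one element `x = aᵛ t aᴹ` of the group the two powers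
`aᵛ = b x a⁻¹ x⁻¹` and `aᴹ` can be read, so one variable is as good as two natural numbers `v`, `M`;
sums, products with powers of two, the order and divisibility by powers of two can be expressed, and
a system of such conditions is made into one equation with the letter `s`. So it is sufficient to
express a recursively enumerable set with two numbers `v`, `M` in this way. Let `g` be a generalised
Collatz map, `m q + b ↦ a_b q + e_b`, such that `k ∈ S` if and only if the orbit of `S₀ 2ᵏ` reaches
`0`. An orbit of length `M` from `k` to `0` is coded to a base `B = 2^β` by numbers `L_b`, `Q_b`,
`Q'_b` for each residue `b`, which satisfy linear equations together with the condition that the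
`L_b` have disjoint binary digits and that `Q_b` and `Q'_b` have disjoint binary digits; with `M` given
there is exactly one such code or none. The linear equations can be put together to one equation
`∑ Wᵢ xᵢ = J` with positive weights. Over the field with two elements `1 / (1 - ∑ zᵢ)` is the sum of
all monomials whose exponents have disjoint binary digits. So the coefficient `c_J` of `z ^ J` in
the power series of `1 / Den(z)`, `Den(z) = (1 - ∑ z ^ W(L_b)) ∏ (1 - z ^ W(Q_b) - z ^ W(Q'_b))`, is
odd if and only if the orbit reaches `0` at the time `M`. This coefficient is a digit of the number
`1 / Den(Z)` to the base `Z = 2^N`, for a large `N`, and it is odd if and only if there is a number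
`v < Z ^ J` (formed by the digits below) such that `2 Z ^ J` divides `Den(Z) (v + Z ^ J) - 1`. All the
numbers here are sums of products of powers of two with exponents which are built in the same way
from `M` and `k`.
-/

set_option autoImplicit false

namespace Pool.Agent.Results.MP_1ebeae_al.Undecidable

open Pool.Agent.KS6_35.OR.Eqs

theorem result :
    -- every recursively enumerable set is given by single equations in one variable
    (∀ S : ℕ → Prop, REPred S → ∃ w : Word 2, ∀ k : ℕ,
      S k ↔ ∃ x : G, value ![x, a ^ k] w = 1) ∧
    -- the single one-variable equation problem for the one-relator group `G` is undecidable
    ¬ ComputablePred (fun w : Word 1 => ∃ x : G, value ![x] w = 1) :=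
  ⟨fun _ hS => Pool.Agent.KS6_35.OV.key1 hS, Pool.Agent.KS6_35.OV.undecidable⟩

end Pool.Agent.Results.MP_1ebeae_al.Undecidable
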